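import Pool.Agent.Helper72_OPG.Final
import Pool.Agent.Helper72_OPG.PA2
import Pool.Agent.Helper72_OPH.MA2
import Pool.Agent.Helper77_OPH.FI2
import Pool.Agent.Helper68_OPH.RE2
import Pool.Agent.Helper37_OPH.PTE
import Pool.Agent.Helper38_OPH.LGX
import Pool.Agent.Helper64_OPH.EXT
import Pool.Agent.Helper72_OPH.STA
import Pool.Agent.Helper81_OPH.END
import Pool.Agent.Helper5_OPH.SCA
import Pool.Agent.Helper44_OPH.GR2
import Pool.Agent.Helper28_OPH.ORD
import Pool.Agent.Helper67_OPH.PT2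
import Pool.Agent.Helper81_OPH.LAN
import Pool.Agent.Helper59_OPH.DKL
import Pool.Agent.Helper81_OPH.DV2

set_option autoImplicit false

/-!
# Squad OPH: the polylogarithmic theorem
-/

namespace Pool.Agent.OPH.H35

open Pool.Agent.OPG Pool.Agent.OPH

theorem pt2Stmt : Pt2Stmt :=
  H67.pt2 (H44.gr2 (H5.sca H37.pte (H64.ext H38.lgx) H72.sta H81.end_)) H28.ord

theorem dv2Stmt : Dv2Stmt := H81.dv2 H81.lan H59.dkl

theorem fi2Stmt : Fi2Stmt :=
  H77.fi2 (H72.ma2 Pool.Agent.OPG.H68.chg Pool.Agent.OPG.H72.ct3Stmt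
    (H72.pa2 pt2Stmt Pool.Agent.OPG.H27.tel Pool.Agent.OPG.H66.gdb Pool.Agent.OPG.H17.bad)) dv2Stmt

theorem re2Stmt : Re2Stmt := H68.re2 fi2Stmt

end Pool.Agent.OPH.H35
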